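import Pool.Agent.N455.CS.Uni
import Pool.Agent.N455.CS.Law

/-!
# The Bodirsky-Pinsker dichotomy under random perturbation

Let `𝔹` be a homogeneous structure in a finite relational signature. We consider templates whose
relations are invariant under the automorphism group of `𝔹` (reducts of `𝔹`), and random relations
`R_0, ..., R_{t-1}` of large arities `k_0, ..., k_{t-1} ≥ n`, with an arbitrary joint law which has
finite energy `exp (-a n)`: given everything else, every orbit of `k_j`-tuples is contained in `R_j`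
with conditional probability between `exp (-a n)` and `1 - exp (-a n)`. Outside of an event of
probability at most `t C exp (-δ exp (c n))` ALL the templates which contain some `R_j` and whose other
relations are some `R_i` or have arity at most `r` satisfy the dichotomy in the strongest form: a
constant map is an endomorphism, or all the invariant relations are primitive positive definable.
-/

namespace Pool.Agent.Results.MP_6ab439_lc.FiniteEnergyReducts

open Pool.Agent.W994.AR
open Pool.Agent.N455.CS (Omega rel IsLaw prob FiniteEnergy productLaw gibbsLaw)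

/-- Every template which consists of finitely many invariant relations `Γ` of arity at most `r` and of
at least one of the relations `R j` has a constant endomorphism or is as hard as possible. -/
def Dichotomy {B σ : Type} {arB : σ → ℕ} (𝔹 : Str σ arB B) (r : ℕ) {t : ℕ} {k : Fin t → ℕ}
    (R : ∀ j, InvRel (autGroup 𝔹) (Fin (k j))) : Prop :=
  ∀ (ι : Type) [Finite ι] (arΓ : ι → ℕ) (Γ : Str ι arΓ B), (∀ l, arΓ l ≤ r) →
    (∀ l, Invar (autGroup 𝔹) (Γ l)) → ∀ (s : ℕ) (e : Fin s → Fin t), 1 ≤ s →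
      ConstEndo (expand Γ (fun j => (R (e j)).1)) ∨
        PPMax (autGroup 𝔹) (expand Γ (fun j => (R (e j)).1))

/-- **The dichotomy holds for almost all templates, for all laws of finite energy.** -/
theorem result {B σ : Type} [Nontrivial B] [Finite σ] {arB : σ → ℕ} (𝔹 : Str σ arB B)
    (h𝔹 : Homogeneous 𝔹) :
    -- there are finitely many orbits
    (∀ n, Finite (Orb (autGroup 𝔹) (Fin n))) ∧
    -- the templates are reducts of homogeneous, finitely bounded structures
    (∀ (ι : Type) [Finite ι] (ar : ι → ℕ) (Γ : Str ι ar B), (∀ l, Invar (autGroup 𝔹) (Γ l)) →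
      Homogeneous (expand 𝔹 Γ) ∧ (FinitelyBounded 𝔹 → FinitelyBounded (expand 𝔹 Γ))) ∧
    -- templates with a constant endomorphism are trivial
    (∀ (ι : Type) (ar : ι → ℕ) (𝔸 : Str ι ar B), ConstEndo 𝔸 → ¬ PPConstructsK3 𝔸 ∧
      ∀ (X : Type) (𝕏 : Str ι ar X),
        (∃ f : X → B, ∀ i, ∀ v ∈ 𝕏 i, (fun j => f (v j)) ∈ 𝔸 i) ↔
          ∀ i, (𝕏 i).Nonempty → (𝔸 i).Nonempty) ∧
    -- the bound for random relations
    (∀ r : ℕ, ∃ C c δ a : ℝ, 0 < C ∧ 0 < c ∧ 0 < δ ∧ 0 < a ∧
      ∀ (t : ℕ) (k : Fin t → ℕ) (n : ℕ), (∀ j, n ≤ k j) →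
        ∀ μ : Set (Omega (autGroup 𝔹) k) → ℝ, IsLaw μ → FiniteEnergy (Real.exp (-(a * n))) μ →
          prob μ (fun Θ => ¬ Dichotomy 𝔹 r (fun j => rel (autGroup 𝔹) k Θ j)) ≤
            t * C * Real.exp (-(δ * Real.exp (c * n)))) ∧
    -- independent orbits: sparse relations, random perturbations of given relations
    (∀ (Ω : Type) [Finite Ω] (p : Ω → ℝ) (ε : ℝ), 0 ≤ ε → (∀ o, ε ≤ p o ∧ p o ≤ 1 - ε) →
      IsLaw (productLaw p) ∧ FiniteEnergy ε (productLaw p)) ∧
    -- Gibbs laws
    (∀ (Ω : Type) [Finite Ω] (H : Set Ω → ℝ) (L : ℝ),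
      (∀ (Θ : Set Ω) (o : Ω), |H (insert o Θ) - H (Θ \ {o})| ≤ L) →
        IsLaw (gibbsLaw H) ∧ FiniteEnergy (1 / (1 + Real.exp L)) (gibbsLaw H)) := by
  classical
  have hfin : ∀ k, Finite (Orb (autGroup 𝔹) (Fin k)) := fun k => hom_finite h𝔹 (Fin k)
  refine ⟨hfin, ?_, ?_, ?_, ?_, ?_⟩
  · intro ι _ ar Γ hΓ
    exact ⟨homogeneous_expand h𝔹 _ hΓ, fun h => finitelyBounded_expand h𝔹 h _ hΓ⟩
  · intro ι ar 𝔸 h
    exact ⟨not_k3_of_const h, fun X 𝕏 => const_csp h X 𝕏⟩
  · intro r
    obtain ⟨M, hM, hdich⟩ := Pool.Agent.N455.CS.dich_of_rich 𝔹 h𝔹 r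
    obtain ⟨C, c, δ, a, hC, hc, hδ, ha, hbd⟩ :=
      Pool.Agent.N455.CS.weight_bound (autGroup 𝔹) M hM hfin
    refine ⟨C, c, δ, a, hC, hc, hδ, ha, ?_⟩
    intro t k n hn μ hμ hfe
    have : Finite (Omega (autGroup 𝔹) k) := by
      have := fun j => hfin (k j)
      infer_instance
    have := Fintype.ofFinite (Omega (autGroup 𝔹) k)
    have h1 := hbd t k n hn (fun R : Finset (Omega (autGroup 𝔹) k) => μ (R : Set _))
      (fun R => hμ.1 _) hfe.fe
    rw [hμ.sum, mul_one] at h1
    refine le_trans (Pool.Agent.N455.CS.prob_le hμ.1 ?_) h1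
    intro R hR hrich
    apply hR
    intro ι _ arΓ Γ hr hΓ s e hs
    exact hdich ι arΓ Γ hr hΓ s hs (fun j => k (e j))
      (fun j => rel (autGroup 𝔹) k (R : Set (Omega (autGroup 𝔹) k)) (e j)) (fun j => hrich (e j))
  · intro Ω _ p ε hε hp
    exact Pool.Agent.N455.CS.product_law p ε hε hp
  · intro Ω _ H L hH
    exact Pool.Agent.N455.CS.gibbs_law H L hH

end Pool.Agent.Results.MP_6ab439_lc.FiniteEnergyReducts
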