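import Pool.Agent.TH668.Csp.P1
import Pool.Agent.W994.AR.Final

/-!
# An unconditional dichotomy for almost all templates: nearly monotone circuits

The Bodirsky-Pinsker conjecture says that the problem `CSP(𝔸)` of a reduct `𝔸` of a finitely bounded homogeneous
structure is in P unless `𝔸` pp-constructs `K_3`, in which case it is NP-complete.  Here the hard side is made
unconditional for circuits of arbitrary monotone real gates with few further gates (for instance negations):

1. For every template `𝔸` with an arbitrary domain (finite or infinite) which pp-constructs `K_3`, every randomised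
   family of such circuits which decides `CSP(𝔸)` for the instances with `N` variables, with an advantage `ξ > 0` on
   every instance, has a member with more than `2 ^ (N ^ c)` gates and wires of further gates, for all large `N`.  Here
   `c < (1 - a) / 52` and the product of the numbers `w + 1` over the further gates, `w` being the number of wires that
   enter the gate, is at most `N ^ a`, `a < 1`; for negations this means at most `a log₂ N` of them.
2. For every homogeneous structure `𝔹` in a finite relational signature and every finite family `Γ` of invariant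
   relations all but a doubly exponentially small proportion of the reducts `(B; Γ, R_1, ..., R_t)` (`R_j` invariant of
   arity at least `m`) either have a constant endomorphism, so that an instance is satisfiable iff all its constraints
   have nonempty relations, or satisfy the lower bound of 1.

Part 1 is `Pool.Agent.TH668.Csp.lower` of the starting library (with `Pool.Agent.H630AD`), which was not used before;
part 2 combines it with the theorem behind the result AlmostAllReducts.
-/

set_option autoImplicit false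

namespace Pool.Agent.Results.MP_6ab439_lc.NearlyMonotoneCircuits

open Pool.Agent.W994.AR
open H630VC H630SD

/-- `F` is an instance of `CSP(𝔸)` with the variables `V`: a set of constraints, a constraint being the name `i` of a
relation with a tuple of variables.  It is satisfiable if some `x : V → A` satisfies all constraints. -/
def Satisfiable {A ι V : Type} {ar : ι → ℕ} (𝔸 : Str ι ar A) (F : Set (Con ar V)) : Prop :=
  ∃ x : V → A, ∀ c ∈ F, (fun j => x (c.2 j)) ∈ 𝔸 c.1

/-- The family `f r`, `r ∈ R`, decides `CSP(𝔸)` with advantage `ξ`: on every instance at least a fraction `1/2 + ξ` of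
the values is right, that is, less than one if the instance is satisfiable and at least one otherwise. -/
def Decides {A ι V R : Type} [Fintype R] {ar : ι → ℕ} (𝔸 : Str ι ar A) (ξ : ℝ)
    (f : R → Set (Con ar V) → ℝ) : Prop :=
  ∀ F : Set (Con ar V),
    (Satisfiable 𝔸 F → (1 / 2 + ξ) * Fintype.card R ≤ ({r | f r F < 1}.ncard : ℝ)) ∧
    (¬ Satisfiable 𝔸 F → (1 / 2 + ξ) * Fintype.card R ≤ ({r | 1 ≤ f r F}.ncard : ℝ))

/-- The lower bound for `CSP(𝔸)` and circuits of monotone real gates with few further gates. -/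
def HardForCircuits {A ι : Type} {ar : ι → ℕ} (𝔸 : Str ι ar A) : Prop :=
  ∀ a c ξ : ℝ, 0 ≤ a → a < 1 → 0 < c → c < (1 - a) / 52 → 0 < ξ →
    ∃ N₀ : ℕ, ∀ N : ℕ, N₀ ≤ N → ∀ (R : Type) [Fintype R] [Nonempty R]
      (f : R → Set (Con ar (Fin N)) → ℝ) (l : R → List (Set (Con ar (Fin N)) → ℝ))
      (q : R → List (List ((Set (Con ar (Fin N)) → ℝ) × ℝ))),
      (∀ r, FProg (conInputs ar (Fin N)) (l r) (q r)) → (∀ r, f r ∈ l r) →
      Decides 𝔸 ξ f →
      (∀ r, (combos (q r) : ℝ) ≤ (N : ℝ) ^ a) →
      ∃ r, (2 : ℝ) ^ ((N : ℝ) ^ c) < (l r).length + wires (q r)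

theorem hard_of_k3 {A ι : Type} {ar : ι → ℕ} (𝔸 : Str ι ar A) (h : PPConstructsK3 𝔸) :
    HardForCircuits 𝔸 := by
  classical
  intro a c ξ ha0 ha hc0 hc hξ
  obtain ⟨N₀, h1⟩ := Pool.Agent.TH668.Csp.lower 𝔸 𝔸 3 le_rfl (Pool.Agent.TH668.Csp.constructs_of_k3 𝔸 h)
    a c ξ ha0 ha hc0 hc hξ
  refine ⟨N₀, fun N hN R _ _ f l q hp hf hdec hcomb => ?_⟩
  refine h1 N hN R f l q hp hf ?_ hcomb
  intro F
  refine ⟨fun hs => ?_, fun hs => ?_⟩
  · have h2 := (hdec F).1 hs
    rw [Set.ncard_eq_toFinset_card'] at h2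
    convert h2 using 3
    ext r
    simp
  · have h2 := (hdec F).2 hs
    rw [Set.ncard_eq_toFinset_card'] at h2
    convert h2 using 3
    ext r
    simp

/-- **An unconditional dichotomy for almost all templates.** -/
theorem result :
    (∀ (A ι : Type) (ar : ι → ℕ) (𝔸 : Str ι ar A), PPConstructsK3 𝔸 → HardForCircuits 𝔸) ∧
    (∀ (A ι : Type) (ar : ι → ℕ) (𝔸 : Str ι ar A), ConstEndo 𝔸 →
      ∀ (V : Type) (F : Set (Con ar V)), Satisfiable 𝔸 F ↔ ∀ c ∈ F, (𝔸 c.1).Nonempty) ∧
    ∀ (B σ ι : Type) [Nontrivial B] [Finite σ] [Finite ι] (arB : σ → ℕ) (arΓ : ι → ℕ)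
      (𝔹 : Str σ arB B), Homogeneous 𝔹 → ∀ Γ : Str ι arΓ B, (∀ l, Invar (autGroup 𝔹) (Γ l)) →
      ∃ C c δ : ℝ, 0 < C ∧ 0 < c ∧ 0 < δ ∧
        ∀ (t : ℕ) (k : Fin t → ℕ) (m : ℕ), 1 ≤ t → (∀ j, m ≤ k j) →
          (Nat.card {R : ∀ j, InvRel (autGroup 𝔹) (Fin (k j)) //
            ¬ (ConstEndo (expand Γ (fun j => (R j).1)) ∨
                HardForCircuits (expand Γ (fun j => (R j).1)))} : ℝ) ≤
            t * C * Real.exp (-(δ * Real.exp (c * m))) *
              Nat.card (∀ j, InvRel (autGroup 𝔹) (Fin (k j))) := by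
  classical
  refine ⟨fun A ι ar 𝔸 h => hard_of_k3 𝔸 h, ?_, ?_⟩
  · intro A ι ar 𝔸 h V F
    obtain ⟨b, hb⟩ := h
    constructor
    · rintro ⟨x, hx⟩ c hc
      exact ⟨_, hx c hc⟩
    · intro h
      refine ⟨fun _ => b, fun c hc => ?_⟩
      obtain ⟨u, hu⟩ := h c hc
      exact hb c.1 u hu
  · intro B σ ι _ _ _ arB arΓ 𝔹 h𝔹 Γ hΓ
    have hfin : ∀ k, Finite (Orb (autGroup 𝔹) (Fin k)) := fun k => hom_finite h𝔹 (Fin k)
    have hfinI : ∀ k, Finite (InvRel (autGroup 𝔹) (Fin k)) := fun k => by
      have := hfin k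
      exact finite_inv _ _
    obtain ⟨C, c, δ, hC, hc, hδ, hbd⟩ := rich_bound_many (autGroup 𝔹) (dim arB arΓ) (dim_pos _ _) hfin
    refine ⟨C, c, δ, hC, hc, hδ, ?_⟩
    intro t k m ht hm
    have h1 := hbd t k m hm
    refine le_trans ?_ h1
    have : Finite (∀ j, InvRel (autGroup 𝔹) (Fin (k j))) := inferInstance
    have h2 : Nat.card {R : ∀ j, InvRel (autGroup 𝔹) (Fin (k j)) //
        ¬ (ConstEndo (expand Γ (fun j => (R j).1)) ∨
            HardForCircuits (expand Γ (fun j => (R j).1)))} ≤
        Nat.card {R : ∀ j, InvRel (autGroup 𝔹) (Fin (k j)) //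
          ¬ ∀ j, Rich (autGroup 𝔹) (Fin (dim arB arΓ)) (R j).1} := by
      apply Nat.card_le_card_of_injective (fun R => ⟨R.1, fun h => R.2 (by
        by_cases hcst : ConstEndo (expand Γ (fun j => (R.1 j).1))
        · exact Or.inl hcst
        · exact Or.inr (hard_of_k3 _ (max_of_rich 𝔹 h𝔹 Γ hΓ ht R.1 h hcst).1))⟩)
      intro R R' h
      exact Subtype.ext (congrArg (fun x => x.1) h)
    exact_mod_cast h2

end Pool.Agent.Results.MP_6ab439_lc.NearlyMonotoneCircuits
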