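import Pool.Agent.R786.BP.Core

/-!
# The infinite-domain tractability conjecture for products of `(ℚ, <)` and finite digraphs

Let `E` be a digraph in which every finite set of vertices has a common in-neighbour and a common
out-neighbour, for example `(ℚ, <)`, and let `F` be a finite digraph which is a core. If the
polymorphisms of the product `E × F` satisfy the pseudo-Siggers identity, then so do the
polymorphisms of `F`; if the polymorphisms of `E` satisfy it, then this is an equivalence. The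
polymorphisms of `(ℚ, <)` satisfy it. For every finite digraph `F`, core or not, all finite systems of
minor identities which hold in the polymorphisms of `E × F` hold in the polymorphisms of `F`.
A finite digraph has a homomorphism to `ℚ × F` if and only if it is acyclic and has a homomorphism
to `F`.
-/

set_option autoImplicit false

namespace Pool.Agent.Results.MP_6ab439_lc.ProductsWithFinite

open Pool.Agent.R786.BP

/-- The digraph `(ℚ, <)`. -/
def ltQ : ℚ → ℚ → Prop := fun p q => p < q

/-- The digraph has no directed cycles (and no loops). -/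
def Acyclic {X : Type} (R : X → X → Prop) : Prop := ∀ x, ¬ Relation.TransGen R x x

/-- There is a homomorphism from the digraph `R` to the digraph `F`: `R` is a yes-instance of
`CSP(F)`. -/
def MapsTo {X A : Type} (R : X → X → Prop) (F : A → A → Prop) : Prop := ∃ f : X → A, IsHom R F f

/-- Every finite system of minor identities `f_k(x ∘ π) = f_l(x ∘ ρ)` between polymorphisms of `E`
is satisfied by polymorphisms of `F` of the same arities. -/
def MinorsDescend {A B : Type} (E : A → A → Prop) (F : B → B → Prop) : Prop :=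
  ∀ (κ : Type) (ar : κ → Type), Finite κ → (∀ k, Finite (ar k)) →
    ∀ f : ∀ k, (ar k → A) → A, (∀ k, IsPol E (f k)) →
    ∃ g : ∀ k, (ar k → B) → B, (∀ k, IsPol F (g k)) ∧
      ∀ (V : Type) (k l : κ) (π : ar k → V) (ρ : ar l → V),
        (∀ x : V → A, f k (x ∘ π) = f l (x ∘ ρ)) → ∀ x : V → B, g k (x ∘ π) = g l (x ∘ ρ)

theorem q_ext : Ext ltQ := by
  intro U
  obtain ⟨d, hd⟩ := U.bddBelow
  obtain ⟨e, he⟩ := U.bddAbove
  refine ⟨⟨d - 1, fun u hu => ?_⟩, ⟨e + 1, fun u hu => ?_⟩⟩
  · have : d ≤ u := hd hu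
    unfold ltQ
    linarith
  · have : u ≤ e := he hu
    unfold ltQ
    linarith

theorem q_ps : PseudoSiggers ltQ := by
  refine ⟨fun x => Finset.univ.sup' Finset.univ_nonempty x, id, id, ?_, fun _ _ h => h,
    fun _ _ h => h, ?_⟩
  · intro x y h
    unfold ltQ
    rw [Finset.sup'_lt_iff]
    intro i _
    exact lt_of_lt_of_le (h i) (Finset.le_sup' y (Finset.mem_univ i))
  · intro x y z
    simp only [id]
    apply le_antisymm
    · rw [Finset.sup'_le_iff]
      intro i _
      fin_cases i
      · exact Finset.le_sup' (![y, z, x, z, x, y]) (Finset.mem_univ 2)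
      · exact Finset.le_sup' (![y, z, x, z, x, y]) (Finset.mem_univ 0)
      · exact Finset.le_sup' (![y, z, x, z, x, y]) (Finset.mem_univ 1)
      · exact Finset.le_sup' (![y, z, x, z, x, y]) (Finset.mem_univ 2)
      · exact Finset.le_sup' (![y, z, x, z, x, y]) (Finset.mem_univ 0)
      · exact Finset.le_sup' (![y, z, x, z, x, y]) (Finset.mem_univ 1)
    · rw [Finset.sup'_le_iff]
      intro i _
      fin_cases i
      · exact Finset.le_sup' (![x, y, z, x, y, z]) (Finset.mem_univ 1)
      · exact Finset.le_sup' (![x, y, z, x, y, z]) (Finset.mem_univ 2)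
      · exact Finset.le_sup' (![x, y, z, x, y, z]) (Finset.mem_univ 0)
      · exact Finset.le_sup' (![x, y, z, x, y, z]) (Finset.mem_univ 2)
      · exact Finset.le_sup' (![x, y, z, x, y, z]) (Finset.mem_univ 0)
      · exact Finset.le_sup' (![x, y, z, x, y, z]) (Finset.mem_univ 1)

theorem q_hom {X : Type} [Finite X] (R : X → X → Prop) : MapsTo R ltQ ↔ Acyclic R := by
  constructor
  · rintro ⟨f, hf⟩ x hx
    have key : ∀ a b, Relation.TransGen R a b → f a < f b := by
      intro a b h
      induction h with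
      | single h => exact hf _ _ h
      | tail _ h ih => exact ih.trans (hf _ _ h)
    exact lt_irrefl _ (key x x hx)
  · intro h
    refine ⟨fun x => (({z | Relation.TransGen R z x} : Set X).ncard : ℚ), fun x y hxy => ?_⟩
    have h1 : ({z | Relation.TransGen R z x} : Set X) ⊂ {z | Relation.TransGen R z y} := by
      refine ⟨fun z hz => Relation.TransGen.tail hz hxy, fun hsub => ?_⟩
      exact h x (hsub (Relation.TransGen.single hxy))
    have h2 := Set.ncard_lt_ncard h1 (Set.toFinite _)
    change ((({z | Relation.TransGen R z x} : Set X).ncard : ℚ)) <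
      (({z | Relation.TransGen R z y} : Set X).ncard : ℚ)
    exact_mod_cast h2

theorem hom_prod {X C H : Type} (R : X → X → Prop) (E : C → C → Prop) (F : H → H → Prop) :
    MapsTo R (prodE E F) ↔ MapsTo R E ∧ MapsTo R F := by
  constructor
  · rintro ⟨f, hf⟩
    exact ⟨⟨fun x => (f x).1, fun x y h => (hf x y h).1⟩,
      ⟨fun x => (f x).2, fun x y h => (hf x y h).2⟩⟩
  · rintro ⟨⟨f, hf⟩, ⟨g, hg⟩⟩
    exact ⟨fun x => (f x, g x), fun x y h => ⟨hf x y h, hg x y h⟩⟩

/-- The digraphs `E` and `F` are homomorphically equivalent. -/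
def HomEquiv {A B : Type} (E : A → A → Prop) (F : B → B → Prop) : Prop :=
  MapsTo E F ∧ MapsTo F E

theorem exists_core {H : Type} [Finite H] (F : H → H → Prop) :
    ∃ (H0 : Type) (F0 : H0 → H0 → Prop), Finite H0 ∧ IsCore F0 ∧ HomEquiv F F0 := by
  classical
  have hne : ∃ n : ℕ, ∃ f : H → H, IsHom F F f ∧ (Set.range f).ncard = n :=
    ⟨_, id, fun _ _ h => h, rfl⟩
  obtain ⟨f, hf, hn⟩ := Nat.find_spec hne
  have hmin : ∀ g : H → H, IsHom F F g → (Set.range f).ncard ≤ (Set.range g).ncard := by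
    intro g hg
    rw [hn]
    exact Nat.find_min' hne ⟨g, hg, rfl⟩
  refine ⟨Set.range f, fun p q => F p.1 q.1, inferInstance, ?_, ⟨fun x => ⟨f x, x, rfl⟩,
    fun x y h => hf x y h⟩, ⟨fun p => p.1, fun p q h => h⟩⟩
  intro e he
  rw [Finite.injective_iff_surjective]
  have h1 := hmin (fun x => (e ⟨f x, x, rfl⟩).1) (fun x y h => he _ _ (hf x y h))
  have h2 : Set.range (fun x => (e ⟨f x, x, rfl⟩).1) ⊆ Set.range f := by
    rintro _ ⟨x, rfl⟩
    exact (e ⟨f x, x, rfl⟩).2
  have h3 := Set.eq_of_subset_of_ncard_le h2 h1 (Set.toFinite _)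
  rintro ⟨p, hp⟩
  have h4 : p ∈ Set.range (fun x => (e ⟨f x, x, rfl⟩).1) := by
    rw [h3]
    exact hp
  obtain ⟨x, hx⟩ := h4
  exact ⟨⟨f x, x, rfl⟩, Subtype.ext hx⟩

/-- Main result. -/
theorem result :
    (∀ (C H : Type) (E : C → C → Prop) (F : H → H → Prop), Finite H → Ext E → IsCore F →
      (PseudoSiggers (prodE E F) → PseudoSiggers F) ∧
      (PseudoSiggers E → (PseudoSiggers (prodE E F) ↔ PseudoSiggers F))) ∧
    (∀ (C H : Type) (E : C → C → Prop) (F : H → H → Prop), Finite H → Ext E →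
      MinorsDescend (prodE E F) F) ∧
    (Ext ltQ ∧ PseudoSiggers ltQ) ∧
    (∀ (H : Type) (F : H → H → Prop), Finite H →
      (IsCore F → (PseudoSiggers (prodE ltQ F) ↔ PseudoSiggers F)) ∧
      ∃ (H0 : Type) (F0 : H0 → H0 → Prop), Finite H0 ∧ IsCore F0 ∧ HomEquiv F F0 ∧
        HomEquiv (prodE ltQ F) (prodE ltQ F0)) ∧
    (∀ (X H : Type) (R : X → X → Prop) (F : H → H → Prop), Finite X →
      (MapsTo R (prodE ltQ F) ↔ Acyclic R ∧ MapsTo R F)) := by
  refine ⟨?_, ?_, ⟨q_ext, q_ps⟩, ?_, ?_⟩
  · intro C H E F hH hE hc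
    exact ⟨pseudoSiggers_down hE hc, fun h => ⟨pseudoSiggers_down hE hc, pseudoSiggers_up h⟩⟩
  · intro C H E F hH hE κ ar hκ har f hf
    exact minor_down hE f hf
  · intro H F hH
    refine ⟨fun hc => ⟨pseudoSiggers_down q_ext hc, pseudoSiggers_up q_ps⟩, ?_⟩
    obtain ⟨H0, F0, h0, hc0, ⟨a, ha⟩, ⟨b, hb⟩⟩ := exists_core F
    exact ⟨H0, F0, h0, hc0, ⟨⟨a, ha⟩, ⟨b, hb⟩⟩,
      ⟨fun p => (p.1, a p.2), fun p q h => ⟨h.1, ha _ _ h.2⟩⟩,
      ⟨fun p => (p.1, b p.2), fun p q h => ⟨h.1, hb _ _ h.2⟩⟩⟩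
  · intro X H R F hX
    rw [hom_prod, q_hom]

end Pool.Agent.Results.MP_6ab439_lc.ProductsWithFinite
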